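import Pool.Agent.Lib.MP_b5021c_nt.IfaceOF

/-!
# Row OF_NU2: the numbers for a load with drop one
-/

namespace Pool.Agent.B5.OF.H74

theorem ond : OndS := by
  intro j l r u h a T' hj ha0 ha1 haj hT hu hl hjr hr he ho hh hX hm
  have hTi : 0 < T'⁻¹ := inv_pos.2 (by linarith)
  have hTT : T' * T'⁻¹ = 1 := mul_inv_cancel₀ (by linarith)
  have hX2 : 2 < T' + T'⁻¹ := by nlinarith [mul_pos (sub_pos.2 hT) (sub_pos.2 hT)]
  have hrT : (r : ℝ) < 2 * T' := by
    rcases Nat.even_or_odd r with h1 | h1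
    · have := he h1
      rw [one_div] at this
      linarith
    · have := ho h1
      linarith
  have hh1 : (h : ℝ) < ((j : ℤ) : ℝ) + 2 := by
    push_cast
    linarith
  have hh2 : h ≤ (j : ℤ) + 1 := by
    have : h < (j : ℤ) + 2 := by exact_mod_cast hh1
    omega
  have hh3 : (h : ℝ) ≤ (j : ℝ) + 1 := by
    have : (h : ℝ) ≤ (((j : ℤ) + 1 : ℤ) : ℝ) := by exact_mod_cast hh2
    push_cast at this
    exact this
  have hu2 : (2 : ℝ) ≤ u := by exact_mod_cast hu
  have hXj : T' + T'⁻¹ ≤ (j : ℝ) - 1 := by linarith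
  have hjr2 : 2 * (j : ℝ) ≤ r + l + 1 := by exact_mod_cast hjr
  rcases Nat.lt_or_ge l 3 with hl3 | hl3
  · -- `l ≤ 2`
    rcases Nat.lt_or_ge r (2 * j - 2) with h1 | h1
    · have h2 : r + 1 = 2 * (j - 1) := by omega
      have h3 : Odd r := by
        refine ⟨j - 2, ?_⟩
        omega
      have h4 := ho h3
      have h5 : (r : ℝ) + 1 = 2 * ((j : ℝ) - 1) := by
        have : ((r + 1 : ℕ) : ℝ) = ((2 * (j - 1) : ℕ) : ℝ) := by exact_mod_cast h2
        push_cast [Nat.cast_sub (show 1 ≤ j by omega)] at this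
        exact this
      linarith
    · have h2 : 2 * (j : ℝ) ≤ r + 2 := by
        have : 2 * j ≤ r + 2 := by omega
        exact_mod_cast this
      linarith
  · have hl3' : (3 : ℝ) ≤ l := by exact_mod_cast hl3
    have h1 : (1 + (l : ℝ)) * (T' + T'⁻¹ + 2) ≤ 2 * j + 6 := by linarith
    have h2 : 4 * (1 + (l : ℝ)) < 2 * j + 6 := by nlinarith
    have h3 : 2 * (l : ℝ) ≤ j := by
      have : 2 * l < j + 1 := by
        have h4 : 2 * (l : ℝ) < (j : ℝ) + 1 := by linarith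
        exact_mod_cast h4
      have h5 : 2 * l ≤ j := by omega
      exact_mod_cast h5
    have h4 : (2 * (j : ℝ) - 1 - l) / 2 + 2 < T' + T'⁻¹ + 2 := by linarith
    have h5 : (1 + (l : ℝ)) * ((2 * (j : ℝ) - 1 - l) / 2 + 2) < 2 * j + 6 :=
      lt_of_lt_of_le (mul_lt_mul_of_pos_left h4 (by linarith)) h1
    nlinarith [mul_nonneg (sub_nonneg.2 h3) (sub_nonneg.2 hl3'),
      mul_nonneg (sub_nonneg.2 hl3') (sub_nonneg.2 hl3')]


end Pool.Agent.B5.OF.H74
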